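import Pool.Agent.helper7.PQ.Spec

set_option autoImplicit false

open Finset PowerSeries

noncomputable section

namespace Pool.Agent.PQ

open Pool.Agent.EP

theorem XFR : XFR_stmt := by
  intro f D y₀ c₁ hf hD hc h
  have hDr : (0 : ℝ) < D := by exact_mod_cast hD
  refine ⟨c₁ * (1 / (4 * (D : ℝ))) ^ (3 / 4 : ℝ), by positivity, D * (max y₀ 2) ^ 2, fun X hX => ?_⟩
  have h1 : (max y₀ 2) ^ 2 ≤ X / D := by
    rw [Nat.le_div_iff_mul_le hD, mul_comm]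
    exact hX
  have h2 : max y₀ 2 ≤ Nat.sqrt (X / D) := by
    rw [Nat.le_sqrt, ← sq]
    exact h1
  obtain ⟨y, hy⟩ : ∃ y, y = Nat.sqrt (X / D) := ⟨_, rfl⟩
  rw [← hy] at h2
  have hy0 : y₀ ≤ y := (le_max_left _ _).trans h2
  have hy2 : 2 ≤ y := (le_max_right _ _).trans h2
  have h3 : D * y ^ 2 ≤ X := by
    have h4 : y ^ 2 ≤ X / D := by
      rw [hy, sq]
      exact Nat.sqrt_le (X / D)
    rw [Nat.le_div_iff_mul_le hD, mul_comm] at h4
    exact h4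
  have h5 : X < D * (y + 1) ^ 2 := by
    have h6 : X / D < (y + 1) ^ 2 := by
      rw [hy, sq]
      exact Nat.lt_succ_sqrt (X / D)
    rw [Nat.div_lt_iff_lt_mul hD, mul_comm] at h6
    exact h6
  have hyr : (2 : ℝ) ≤ y := by exact_mod_cast hy2
  have h5r : (X : ℝ) ≤ D * ((y : ℝ) + 1) ^ 2 := by exact_mod_cast h5.le
  have h7 : (X : ℝ) / (4 * D) ≤ (y : ℝ) ^ 2 := by
    rw [div_le_iff₀ (by positivity)]
    nlinarith [mul_nonneg hDr.le (mul_nonneg (by linarith : (0 : ℝ) ≤ (y : ℝ) - 1) (by linarith : (0 : ℝ) ≤ 3 * (y : ℝ) + 1))]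
  have h8 : (1 / (4 * (D : ℝ))) ^ (3 / 4 : ℝ) * (X : ℝ) ^ (3 / 4 : ℝ) ≤ (y : ℝ) ^ (3 / 2 : ℝ) := by
    rw [← Real.mul_rpow (by positivity) (by positivity)]
    have h9 : (y : ℝ) ^ (3 / 2 : ℝ) = ((y : ℝ) ^ 2) ^ (3 / 4 : ℝ) := by
      rw [← Real.rpow_natCast, ← Real.rpow_mul (by positivity)]
      norm_num
    rw [h9]
    apply Real.rpow_le_rpow (by positivity) _ (by norm_num)
    rw [one_div_mul_eq_div]
    exact h7
  have hyX : y ≤ X := by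
    calc y ≤ y ^ 2 := Nat.le_self_pow (by norm_num) y
      _ ≤ D * y ^ 2 := Nat.le_mul_of_pos_left _ hD
      _ ≤ X := h3
  have hlog : 0 < Real.log y := Real.log_pos (by linarith)
  have hlog2 : Real.log y ≤ Real.log X := Real.log_le_log (by linarith) (by exact_mod_cast hyX)
  calc c₁ * (1 / (4 * (D : ℝ))) ^ (3 / 4 : ℝ) * (X : ℝ) ^ (3 / 4 : ℝ) / Real.log X ^ 2
      = c₁ * ((1 / (4 * (D : ℝ))) ^ (3 / 4 : ℝ) * (X : ℝ) ^ (3 / 4 : ℝ)) / Real.log X ^ 2 := by ring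
    _ ≤ c₁ * (y : ℝ) ^ (3 / 2 : ℝ) / Real.log y ^ 2 := by
        apply div_le_div₀ (by positivity) (mul_le_mul_of_nonneg_left h8 hc.le) (by positivity)
        exact pow_le_pow_left₀ hlog.le hlog2 2
    _ ≤ (f (D * y ^ 2) : ℝ) := h y hy0
    _ ≤ (f X : ℝ) := by exact_mod_cast hf h3

end Pool.Agent.PQ
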